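import Pool.Agent.H4.IpC

set_option autoImplicit false

namespace Pool.Agent.Results.MP_23b914_co.No

/-- Bohr sets in the integers -/
def Bohr {k : ℕ} (α : Fin k → ℝ) (η : ℝ) : Set ℤ :=
  {x | ∀ j, ‖Complex.exp (2 * Real.pi * Complex.I * α j * x) - 1‖ < η}

/-- finite nonempty sums of the terms of a sequence -/
def FS (x : ℕ → ℕ) : Set ℤ := {s | ∃ F : Finset ℕ, F.Nonempty ∧ s = ∑ n ∈ F, (x n : ℤ)}

theorem result : ∃ (x : ℕ → ℕ) (A : Set ℤ), (∀ n, 1 ≤ x n) ∧
    (∀ N : ℕ, ∃ M : ℤ, (N : ℝ) / 8 ≤ (A ∩ Set.Icc (M + 1) (M + N)).ncard) ∧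
    ∀ (k : ℕ) (α : Fin k → ℝ) (η : ℝ), 0 < η →
      ¬ Bohr α η ⊆ {y | ∃ a ∈ A, ∃ a' ∈ A, ∃ s ∈ FS x, y = a - a' + s} := by
  classical
  obtain ⟨x, A, h1, h2, h3⟩ := Pool.Agent.H4.IpC.main
  refine ⟨x, (fun a : ℕ => (a : ℤ)) '' A, h1, fun N => ?_, fun k α η hη h => ?_⟩
  · rcases Nat.eq_zero_or_pos N with rfl | hN
    · exact ⟨0, by simp⟩
    obtain ⟨L, hL, S, hS, hc⟩ := h2 N
    obtain ⟨y, -, hy⟩ := Finset.exists_le_card_fiber_of_nsmul_le_card_of_maps_to
      (s := S) (t := Finset.range (L / N + 1)) (f := fun a => a / N) (b := (N : ℝ) / 8)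
      (fun a ha => Finset.mem_range.2 (Nat.lt_succ_of_le (Nat.div_le_div_right (hS a ha).2.le)))
      (by simp) (by
        rw [Finset.card_range, nsmul_eq_mul]
        have a1 : ((L / N : ℕ) : ℝ) * N ≤ L := by exact_mod_cast Nat.div_mul_le_self L N
        have a2 : (N : ℝ) ≤ L := by exact_mod_cast hL
        push_cast
        nlinarith)
    refine ⟨(N * y : ℕ) - 1, hy.trans ?_⟩
    rw [← Finset.card_image_of_injective _ (Nat.cast_injective (R := ℤ)), ← Set.ncard_coe_finset]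
    refine Nat.cast_le.2 (Set.ncard_le_ncard ?_ ((Set.finite_Icc _ _).inter_of_right _))
    intro t ht
    obtain ⟨a, ha, rfl⟩ := Finset.mem_image.1 (Finset.mem_coe.1 ht)
    obtain ⟨ha, hay⟩ := Finset.mem_filter.1 ha
    have b1 := Nat.div_add_mod a N
    have b2 := Nat.mod_lt a hN
    rw [hay] at b1
    exact ⟨⟨a, (hS a ha).1, rfl⟩, by omega, by omega⟩
  · obtain ⟨m, hm⟩ := exists_nat_gt (2 * Real.pi / η)
    obtain ⟨r, hr, hne⟩ := h3 (k + m) (fun j => if h : j < k then α ⟨j, h⟩ else 0)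
    obtain ⟨_, ⟨a, ha, rfl⟩, _, ⟨a', ha', rfl⟩, _, ⟨F, -, rfl⟩, e⟩ := h (show (r : ℤ) ∈ Bohr α η from by
      intro j
      obtain ⟨z, hz⟩ := hr j (by have := j.2; omega)
      simp only [dif_pos j.2] at hz
      have e : Complex.exp (2 * Real.pi * Complex.I * α j * (r : ℤ)) =
          Complex.exp (Complex.I * ((2 * Real.pi * (r * α j - z) : ℝ) : ℂ)) := by
        rw [← mul_one (Complex.exp (Complex.I * _)), ← Complex.exp_int_mul_two_pi_mul_I z,
          ← Complex.exp_add]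
        congr 1
        push_cast
        ring
      rw [e]
      refine Real.norm_exp_I_mul_ofReal_sub_one_le.trans_lt ?_
      rw [Real.norm_eq_abs, abs_mul, abs_of_pos Real.two_pi_pos]
      have p : (0 : ℝ) < ((k + m : ℕ) : ℝ) + 1 := by positivity
      refine (mul_le_mul_of_nonneg_left hz Real.two_pi_pos.le).trans_lt ?_
      rw [mul_one_div, div_lt_iff₀ p]
      rw [div_lt_iff₀ hη] at hm
      push_cast
      have : (0 : ℝ) ≤ k := Nat.cast_nonneg k
      nlinarith)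
    apply hne a ha a' ha' F
    have : ((a + ∑ n ∈ F, x n : ℕ) : ℤ) = ((a' + r : ℕ) : ℤ) := by
      push_cast
      simp only at e
      omega
    exact_mod_cast this

end Pool.Agent.Results.MP_23b914_co.No
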